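import Pool.Agent.L0h24.Gev.Main

set_option autoImplicit false

/-!
# MP_850839: the tube inequality in the full range, with a logarithmic loss, for tubes from
real-analytic and Gevrey families of lines

Work in `ℝ^n = ℝ^d × ℝ`, `n = d + 1`, with its Euclidean norm (`Space d`).  A line with direction
`dir v = (v, 1)/|(v, 1)|` meets the hyperplane of height `0` in a point `(β, 0)`; a tube with this
axis is centred at `(β + s v, s)`.  The tubes considered have `|v| ≤ 1` and `|s| ≤ S`, and their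
orientations are `δ`-separated.

Here `|β - b v| ≤ K δ` for a map `b` from `ℝ^d` to `ℝ^d` (a family of lines, one for each direction).

1. If `b` is of class `C^(k+1)` and `‖D^j b‖ ≤ L R^(j-1) j!` for `1 ≤ j ≤ k + 1` on the unit ball, the
  conjectured inequality holds for every `q > n/(n-1)` with the constant
  `C (k+1)^((n-1)^2 (1-1/q)) (R δ^(-1/(k+1)))^(1/q) (1 + K + L + S)^(n-1)`, where `C` depends only on
  `n` and `q`: the bound is uniform in the order `k` of smoothness.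
2. If `b` is of Gevrey class `s₀ ≥ 1`, `‖D^j b‖ ≤ L R^(j-1) (j!)^(s₀)` for all `j ≥ 1` on the unit ball
  (`s₀ = 1`: real-analytic), the loss is at most a power of the logarithm:
  `C R^(1/q) (1 + log (1/δ))^((n-1)^2 (1-1/q) + (s₀-1)/q) (1 + K + L + S)^(n-1)`, where `C` depends
  only on `n` and `q`.
-/

open MeasureTheory Set Filter Topology ENNReal NNReal Metric

namespace Pool.Agent.Results.MP_850839_an.GevreyFamilies

open Pool.Agent.H810R3.Tub

variable {d : ℕ}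

/-- The sum of the indicators of the `δ`-tubes with axis directions `dir (v i)` and centres
`(β i + s i v i, s i)`. -/
noncomputable def tubeSum {ι : Type} [Fintype ι] (δ : ℝ) (v β : ι → Vec d) (s : ι → ℝ)
    (y : Space d) : ℝ :=
  ∑ i, (tube δ (dir (v i)) (WithLp.toLp 2 (β i + s i • v i, s i))).indicator (fun _ => (1 : ℝ)) y

/-- The axes lie up to `K δ` in the family of lines `b`, the slopes are at most `1`, the heights of
the centres at most `S`, and the orientations are `δ`-separated. -/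
def Follow (b : Vec d → Vec d) (K S δ : ℝ) {ι : Type} (v β : ι → Vec d) (s : ι → ℝ) : Prop :=
  (∀ i, ‖v i‖ ≤ 1) ∧ (∀ i, |s i| ≤ S) ∧ (∀ i, ‖β i - b (v i)‖ ≤ K * δ) ∧
    ∀ i j, i ≠ j → δ ≤ ‖dir (v i) - dir (v j)‖

/-- The inequality of Q1 (`n = d + 1`) with the constant `X` for all families of `δ`-tubes with
`δ`-separated orientations which follow `b`:
`‖∑ 1_T‖_q ≤ X δ ^ ((n - 1) / q) (#T) ^ (1 - 1 / (q (n - 1)))`. -/
def Bound (b : Vec d → Vec d) (K S q δ X : ℝ) : Prop :=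
  ∀ (ι : Type) [Fintype ι] (v β : ι → Vec d) (s : ι → ℝ), Follow b K S δ v β s →
    eLpNorm (tubeSum δ v β s) (ENNReal.ofReal q) volume ≤
      ENNReal.ofReal (X * (δ ^ ((d : ℝ) / q) * (Fintype.card ι : ℝ) ^ (1 - 1 / (q * d))))

/-- **The conjectured inequality for `δ`-tubes with `δ`-separated orientations, in the full range
`q > n/(n-1)`, `n = d + 1`, with the conjectured dependence on the number of tubes**, for tubes whose
axes lie (up to `K δ`) in a `C^(k+1)` family of lines, uniformly in `k`, and for Gevrey families of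
lines with a loss of a power of `log (1/δ)`. -/
theorem result (d : ℕ) (hd : 1 ≤ d) (q : ℝ) (hq : ((d : ℝ) + 1) / d < q) :
    (∃ C : ℝ, 0 < C ∧ ∀ (k : ℕ) (L K S : ℝ≥0) (R : ℝ) (b : Vec d → Vec d), 1 ≤ R →
      ContDiff ℝ (k + 1 : ℕ) b →
      (∀ j, 1 ≤ j → j ≤ k + 1 → ∀ v, ‖v‖ ≤ 1 →
        ‖iteratedFDeriv ℝ j b v‖ ≤ L * R ^ (j - 1) * j.factorial) →
      ∀ δ : ℝ, 0 < δ → δ < 1 → Bound b K S q δ
        (C * (k + 1 : ℝ) ^ ((d : ℝ) ^ 2 * (1 - 1 / q)) * (R * δ ^ (-(1 / ((k : ℝ) + 1)))) ^ (1 / q) *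
          (1 + K + L + S : ℝ) ^ d)) ∧
    (∃ C : ℝ, 0 < C ∧ ∀ (s₀ : ℝ) (L K S : ℝ≥0) (R : ℝ) (b : Vec d → Vec d), 1 ≤ s₀ → 1 ≤ R →
      ContDiff ℝ (⊤ : ℕ∞) b →
      (∀ j, 1 ≤ j → ∀ v, ‖v‖ ≤ 1 →
        ‖iteratedFDeriv ℝ j b v‖ ≤ L * R ^ (j - 1) * (j.factorial : ℝ) ^ s₀) →
      ∀ δ : ℝ, 0 < δ → δ < 1 → Bound b K S q δ
        (C * R ^ (1 / q) * (1 + Real.log (1 / δ)) ^ ((d : ℝ) ^ 2 * (1 - 1 / q) + (s₀ - 1) / q) *
          (1 + K + L + S : ℝ) ^ d)) := by
  constructor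
  · obtain ⟨C, hC, h⟩ := Pool.Agent.L0h24.Gev.uniform d hd q hq
    refine ⟨C, hC, ?_⟩
    intro k L K S R b hR hb hA δ hδ hδ1 ι _ v β s hF
    refine (h k L K S R b hR hb hA δ hδ hδ1 ι v β s hF.1 hF.2.1 hF.2.2.1 hF.2.2.2).trans
      (le_of_eq ?_)
    congr 1
    ring
  · obtain ⟨C, hC, h⟩ := Pool.Agent.L0h24.Gev.gevrey d hd q hq
    refine ⟨C, hC, ?_⟩
    intro s₀ L K S R b hs₀ hR hb hA δ hδ hδ1 ι _ v β s hF
    refine (h s₀ L K S R b hs₀ hR hb hA δ hδ hδ1 ι v β s hF.1 hF.2.1 hF.2.2.1 hF.2.2.2).trans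
      (le_of_eq ?_)
    congr 1
    ring

end Pool.Agent.Results.MP_850839_an.GevreyFamilies
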