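import Pool.Agent.L0h24.PF.Final

set_option autoImplicit false

/-!
# MP_850839: the tube inequality in the full range, without loss, for almost all smooth families of
lines

Work in `ℝ^n = ℝ^d × ℝ`, `n = d + 1 ≥ 3`, with its Euclidean norm (`Space d`).  A line with direction
`dir v = (v, 1)/|(v, 1)|` meets the hyperplane of height `0` in a point `(β, 0)`; a tube with this
axis is centred at `(β + s v, s)`.

A family of lines is given by a map `b : ℝ^d → ℝ^d`.  Let `b` be of class `C^K`,
`K = (n + 1)^(2^(n-1))`.  For Lebesgue almost every choice of `d (d + 2)` real numbers `p_{r,j}` the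
perturbed family

  `(b_p)_r (u) = b_r (u) + ∑_{1 ≤ j ≤ n + 1} p_{r,j} u_r^j`

satisfies the inequality of Q1 for all `q > n/(n-1)`, without loss in `δ` and with a constant which
does not depend on `δ`, for all the families of `δ`-tubes with `δ`-separated directions which follow
`b_p` up to `K δ`.  There is no restriction on the directions (within the cone `|v| ≤ 1`).

The proof has two parts.  At the points where the ideal generated by the jets of the components of a
section map `u ↦ b u + t u` has finite colength `N`, the section maps near it have at most `N`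
preimages: this uses an interpolation formula with smooth dependence on collapsing configurations of
points.  For almost every `p` these colengths are bounded by `(d + 2)^(2^d - 1)` at all points and
heights: this uses characteristic polynomials of multiplication maps and the dimension of the set of
parameters where they vanish to a high order.
-/

open MeasureTheory Set

namespace Pool.Agent.Results.MP_850839_an.PrevalentFamilies

open Pool.Agent.H810R3.Tub (Vec Space tube dir)

variable {d : ℕ}

/-- The sum of the indicators of the `δ`-tubes with axis directions `dir (v i)` and centres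
`(β i + s i v i, s i)`. -/
noncomputable def tubeSum {ι : Type} [Fintype ι] (δ : ℝ) (v β : ι → Vec d) (s : ι → ℝ)
    (y : Space d) : ℝ :=
  ∑ i, (tube δ (dir (v i)) (WithLp.toLp 2 (β i + s i • v i, s i))).indicator (fun _ => (1 : ℝ)) y

/-- The `δ`-tubes have `δ`-separated orientations, slopes `|v i| ≤ 1`, heights `|s i| ≤ S`, and they
follow the family of lines `b` up to `K δ`. -/
def Follows (b : Vec d → Vec d) (K S δ : ℝ) {ι : Type} (v β : ι → Vec d) (s : ι → ℝ) : Prop :=
  (∀ i, ‖v i‖ ≤ 1) ∧ (∀ i, |s i| ≤ S) ∧ (∀ i, ‖β i - b (v i)‖ ≤ K * δ) ∧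
    ∀ i j, i ≠ j → δ ≤ ‖dir (v i) - dir (v j)‖

/-- The inequality of Q1 (`n = d + 1`), with the constant `C`:
`‖∑ 1_T‖_q ≤ C δ ^ ((n - 1) / q) (#T) ^ (1 - 1 / (q (n - 1)))`. -/
def Ineq (q C δ : ℝ) {ι : Type} [Fintype ι] (v β : ι → Vec d) (s : ι → ℝ) : Prop :=
  eLpNorm (tubeSum δ v β s) (ENNReal.ofReal q) volume ≤
    ENNReal.ofReal (C * (δ ^ ((d : ℝ) / q) * (Fintype.card ι : ℝ) ^ (1 - 1 / (q * d))))

/-- The inequality of Q1, in the full range `q > n / (n - 1)`, without loss and with a constant
independent of `δ`, for all the families of tubes which follow `b`. -/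
def TubeBound (b : Vec d → Vec d) : Prop :=
  ∀ K S : ℝ, 0 ≤ K → 0 ≤ S → ∀ q : ℝ, ((d : ℝ) + 1) / d < q →
    ∃ C : ℝ, 0 < C ∧ ∀ δ : ℝ, 0 < δ → δ < 1 → ∀ (ι : Type) [Fintype ι] (v β : ι → Vec d) (s : ι → ℝ),
      Follows b K S δ v β s → Ineq q C δ v β s

/-- The perturbation of the `r`-th component of `b` by the polynomial `∑_{1 ≤ j ≤ m} p_{r,j} u_r^j` in
the `r`-th coordinate. -/
noncomputable def perturb {m : ℕ} (b : Vec d → Vec d) (p : Fin d → Fin m → ℝ) (u : Vec d) : Vec d :=
  WithLp.toLp 2 (fun r => b u r + ∑ j : Fin m, p r j * (u r) ^ ((j : ℕ) + 1))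

/-- **The inequality of Q1 in the full range, without loss, for almost every diagonal polynomial
perturbation of an arbitrary smooth family of lines.** -/
theorem result (d : ℕ) (hd : 2 ≤ d) (b : Vec d → Vec d) (hb : ContDiff ℝ ((d + 2) ^ 2 ^ d : ℕ) b) :
    ∀ᵐ p : Fin d → Fin (d + 2) → ℝ, TubeBound (perturb b p) := by
  filter_upwards [Pool.Agent.L0h24.PF.prevalent (by omega) hb] with p hp
  have h0 : perturb b p = Pool.Agent.L0h24.PF.dpert b p := by
    funext u
    ext r
    rfl
  rw [h0]
  intro K S hK hS q hq
  obtain ⟨C, hC, h⟩ := Pool.Agent.L0h24.PF.global hd (m := (d + 2) ^ (2 ^ d - 1))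
    (Nat.one_le_pow _ _ (by omega)) (isCompact_closedBall (0 : Vec d) 1) (fun v _ => hp v)
    ⟨K, hK⟩ ⟨S, hS⟩ hq
  exact ⟨C, hC, fun δ hδ hδ1 ι _ v β s hF => h δ hδ hδ1 ι v β s
    (fun i => by simpa using hF.1 i) hF.1 hF.2.1 hF.2.2.1 hF.2.2.2⟩

end Pool.Agent.Results.MP_850839_an.PrevalentFamilies
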