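import Pool.Agent.L0h24.SS.Main

set_option autoImplicit false

/-!
# MP_850839: the tube inequality in the full range, without loss, for `C^1` families of lines whose
derivative has simple real eigenvalues

Work in `ℝ^n = ℝ^d × ℝ`, `n = d + 1 ≥ 3`, with its Euclidean norm (`Space d`).  A line with direction
`dir v = (v, 1)/|(v, 1)|` meets the hyperplane of height `0` in a point `(β, 0)`; a tube with this
axis is centred at `(β + s v, s)`.

Let `b : ℝ^d → ℝ^d` be of class `C^1` near a compact subset `Ω` of the unit ball, and `I` a closed set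
of heights.  Suppose that for `v` in `Ω` and `t` in `I` the number `-t` is not an eigenvalue of the
derivative of `b` at `v`, or an eigenvalue of algebraic multiplicity one (for `I = ℝ`: all real
eigenvalues are simple; in `ℝ^3` this says that the discriminant does not vanish).  Then the
`δ`-tubes with slopes `v i ∈ Ω`, axes through `(β i, 0)` with `|β i - b (v i)| ≤ K δ` and heights in
`I`, with `δ`-separated orientations, satisfy

* `‖∑ 1_T‖_2 ≤ C (δ^(n-1) #T (1 + log #T))^(1/2)` (as for tubes in the plane), and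
* the inequality of Q1 for every `q > n/(n-1)`, without loss.

No bound for the number of solutions of `b v + t v = x` and no smoothness beyond `C^1` is assumed.
The same holds for arbitrary families of tubes which are close, in the Lipschitz sense and up to
`K δ`, to one linear map with simple real eigenvalues.
-/

open MeasureTheory Set

namespace Pool.Agent.Results.MP_850839_an.SimpleEigenvalues

open Pool.Agent.H810R3.Tub (Vec Space tube dir)

variable {d : ℕ}

/-- The sum of the indicators of the `δ`-tubes with axis directions `dir (v i)` and centres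
`(β i + s i v i, s i)`. -/
noncomputable def tubeSum {ι : Type} [Fintype ι] (δ : ℝ) (v β : ι → Vec d) (s : ι → ℝ)
    (y : Space d) : ℝ :=
  ∑ i, (tube δ (dir (v i)) (WithLp.toLp 2 (β i + s i • v i, s i))).indicator (fun _ => (1 : ℝ)) y

/-- For every `t` in `I` the generalised eigenspace of `Λ` for the real number `-t` has dimension at
most one: `-t` is not an eigenvalue of `Λ`, or its algebraic multiplicity is one. -/
def SimpleOn (I : Set ℝ) (Λ : Vec d →L[ℝ] Vec d) : Prop :=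
  ∀ t ∈ I, Module.finrank ℝ (Module.End.maxGenEigenspace (Λ : Vec d →ₗ[ℝ] Vec d) (-t)) ≤ 1

/-- The slopes are at most `1`, the tubes have heights in `I`, and the orientations are
`δ`-separated. -/
def Admissible (I : Set ℝ) (δ : ℝ) {ι : Type} (v : ι → Vec d) (s : ι → ℝ) : Prop :=
  (∀ i, ‖v i‖ ≤ 1) ∧ (∀ i, Icc (s i - 3 / 2) (s i + 3 / 2) ⊆ I) ∧
    ∀ i j, i ≠ j → δ ≤ ‖dir (v i) - dir (v j)‖

/-- With the constant `C`: `‖∑ 1_T‖_2 ≤ C (δ^(n-1) #T (1 + log #T))^(1/2)`, and the inequality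
of Q1 (`n = d + 1`), `‖∑ 1_T‖_q ≤ C δ ^ ((n - 1) / q) (#T) ^ (1 - 1 / (q (n - 1)))`. -/
def Ineq (q C δ : ℝ) {ι : Type} [Fintype ι] (v β : ι → Vec d) (s : ι → ℝ) : Prop :=
  eLpNorm (tubeSum δ v β s) (ENNReal.ofReal 2) volume ≤
    ENNReal.ofReal (C * (δ ^ d * (Fintype.card ι * (1 + Real.log (Fintype.card ι)))) ^ (1 / (2 : ℝ))) ∧
  eLpNorm (tubeSum δ v β s) (ENNReal.ofReal q) volume ≤
    ENNReal.ofReal (C * (δ ^ ((d : ℝ) / q) * (Fintype.card ι : ℝ) ^ (1 - 1 / (q * d))))

/-- **The inequality of Q1 in the full range `q > n/(n-1)`, `n = d + 1 ≥ 3`, without loss**, for tubes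
which are Lipschitz-close to one linear map with simple real eigenvalues, and for tubes following a
`C^1` family of lines whose derivative has simple real eigenvalues. -/
theorem result (d : ℕ) (hd : 2 ≤ d) (I : Set ℝ) (hI : IsClosed I) :
    (∀ Λ : Vec d →L[ℝ] Vec d, SimpleOn I Λ → ∃ η : ℝ, 0 < η ∧ ∀ K : ℝ, 0 ≤ K → ∀ q : ℝ,
      ((d : ℝ) + 1) / d < q → ∃ C : ℝ, 0 < C ∧ ∀ δ : ℝ, 0 < δ → δ < 1 →
        ∀ (ι : Type) [Fintype ι] (v β : ι → Vec d) (s : ι → ℝ), Admissible I δ v s →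
          (∀ i j, ‖(β i - β j) - Λ (v i - v j)‖ ≤ η * ‖v i - v j‖ + K * δ) →
          Ineq q C δ v β s) ∧
    (∀ (b : Vec d → Vec d) (Ω : Set (Vec d)), IsCompact Ω → (∀ v ∈ Ω, ContDiffAt ℝ 1 b v) →
      (∀ v ∈ Ω, SimpleOn I (fderiv ℝ b v)) → ∀ K : ℝ, 0 ≤ K → ∀ q : ℝ,
      ((d : ℝ) + 1) / d < q → ∃ C : ℝ, 0 < C ∧ ∀ δ : ℝ, 0 < δ → δ < 1 →
        ∀ (ι : Type) [Fintype ι] (v β : ι → Vec d) (s : ι → ℝ), Admissible I δ v s →
          (∀ i, v i ∈ Ω) → (∀ i, ‖β i - b (v i)‖ ≤ K * δ) →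
          Ineq q C δ v β s) := by
  constructor
  · intro Λ hΛ
    obtain ⟨η, hη, h⟩ := Pool.Agent.L0h24.SS.localBound hd hI Λ hΛ
    refine ⟨η, hη, fun K hK q hq => ?_⟩
    obtain ⟨C, hC, h1⟩ := h K hK q hq
    exact ⟨C, hC, fun δ hδ hδ1 ι _ v β s hA hn => h1 δ hδ hδ1 ι v β s hA.1 hA.2.1 hn hA.2.2⟩
  · intro b Ω hΩ hb hs K hK q hq
    have hΩ' : IsCompact (Ω ∩ Metric.closedBall 0 1) := hΩ.inter_right Metric.isClosed_closedBall
    obtain ⟨C, hC, h1⟩ := Pool.Agent.L0h24.SS.globalBound hd hI hΩ'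
      (fun v hv => by simpa using hv.2) (b := b) (D := fderiv ℝ b)
      (fun v hv => (hb v hv.1).hasStrictFDerivAt one_ne_zero) (fun v hv => hs v hv.1) hK hq
    exact ⟨C, hC, fun δ hδ hδ1 ι _ v β s hA hv hβ => h1 δ hδ hδ1 ι v β s
      (fun i => ⟨hv i, by simpa using hA.1 i⟩) hA.2.1 hβ hA.2.2⟩

end Pool.Agent.Results.MP_850839_an.SimpleEigenvalues
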