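import Pool.Agent.L0h24.Uni.Main

set_option autoImplicit false

/-!
# MP_850839: one Gevrey family of lines for which removing a logarithmic loss is equivalent to Q1

Work in `ℝ^n = ℝ^d × ℝ`, `n = d + 1`, with its Euclidean norm (`Space d`).  A map `A : ℝ^d → ℝ^d`
defines a family of lines, one for each slope `v`: the line through `(A v, 0)` with direction
`(v, 1)`.  Its `δ`-tube is the `δ`-tube with this axis and centre `(A v, 0)`.

The theorem gives, for every `ε > 0`, **one** map `A` of class `C^∞`, with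
`‖D^k A‖ ≤ ε (k!)^3` everywhere for all `k`, and with `A = 0` outside the unit ball (the lines are a
small perturbation, in a Gevrey class, of the lines through one point), such that for every
`q > n/(n-1)`:

1. the inequality of Q1 holds for all finite subfamilies of the tubes of `A` with `δ`-separated
  orientations, with a loss of a power of `log (1/δ)`;
2. the inequality of Q1 without loss holds for all finite subfamilies of the tubes of `A` with
  `δ`-separated orientations **if and only if** it holds for all finite families of `δ`-tubes with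
  `δ`-separated orientations.

So Q1 is equivalent to the removal of the logarithmic loss for one single, explicitly smooth, choice
of one line for every direction.
-/

open MeasureTheory

namespace Pool.Agent.Results.MP_850839_an.UniversalFamily

open Pool.Agent.H810R3.Tub (Vec Space tube dir)

variable {d : ℕ}

/-- The `δ`-tube of the family `A` with slope `v`: its axis has the direction `(v, 1)` and its centre
is `(A v, 0)`. -/
def famTube (A : Vec d → Vec d) (δ : ℝ) (v : Vec d) : Set (Space d) :=
  tube δ (dir v) (WithLp.toLp 2 (A v, (0 : ℝ)))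

/-- The inequality of Q1 (`n = d + 1`) with the constant `X`, for the tubes of the family `A` with
slopes `v i`, `|v i| ≤ 1`, and `δ`-separated orientations:
`‖∑ 1_T‖_q ≤ X δ ^ ((n - 1) / q) (#T) ^ (1 - 1 / (q (n - 1)))`. -/
def FamilyBound (A : Vec d → Vec d) (q δ X : ℝ) : Prop :=
  ∀ (ι : Type) [Fintype ι] (v : ι → Vec d), (∀ i, ‖v i‖ ≤ 1) →
    (∀ i j, i ≠ j → δ ≤ ‖dir (v i) - dir (v j)‖) →
    eLpNorm (fun y : Space d => ∑ i, (famTube A δ (v i)).indicator (fun _ => (1 : ℝ)) y)
      (ENNReal.ofReal q) volume ≤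
      ENNReal.ofReal (X * (δ ^ ((d : ℝ) / q) * (Fintype.card ι : ℝ) ^ (1 - 1 / (q * d))))

/-- Q1 in `ℝ^n`, `n = d + 1`, at the exponent `q`: the inequality without loss for all finite families
of `δ`-tubes (directions `e i`, centres `a i`) with `δ`-separated orientations, `0 < δ < 1`. -/
def Q1At (d : ℕ) (q : ℝ) : Prop :=
  ∃ C : ℝ, 0 < C ∧ ∀ δ : ℝ, 0 < δ → δ < 1 → ∀ (ι : Type) [Fintype ι] (a e : ι → Space d),
    (∀ i, ‖e i‖ = 1) → (∀ i j, i ≠ j → δ ≤ ‖e i - e j‖) →
    eLpNorm (fun y : Space d => ∑ i, (tube δ (e i) (a i)).indicator (fun _ => (1 : ℝ)) y)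
      (ENNReal.ofReal q) volume ≤
      ENNReal.ofReal (C * (δ ^ ((d : ℝ) / q) * (Fintype.card ι : ℝ) ^ (1 - 1 / (q * d))))

/-- **A universal Gevrey family of lines**: the inequality of Q1 holds for it with a logarithmic
loss in the full range `q > n/(n-1)`, and it holds without loss if and only if it holds for all
families of tubes. -/
theorem result (d : ℕ) (hd : 1 ≤ d) (ε : ℝ) (hε : 0 < ε) :
    ∃ A : Vec d → Vec d, ContDiff ℝ (⊤ : ℕ∞) A ∧
      (∀ (k : ℕ) (x : Vec d), ‖iteratedFDeriv ℝ k A x‖ ≤ ε * (k.factorial : ℝ) ^ 3) ∧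
      (∀ x : Vec d, 1 ≤ ‖x‖ → A x = 0) ∧
      ∀ q : ℝ, ((d : ℝ) + 1) / d < q →
        (∃ C : ℝ, 0 < C ∧ ∀ δ : ℝ, 0 < δ → δ < 1 →
          FamilyBound A q δ (C * (1 + Real.log (1 / δ)) ^ ((d : ℝ) ^ 2 * (1 - 1 / q) + 2 / q))) ∧
        ((∃ C : ℝ, 0 < C ∧ ∀ δ : ℝ, 0 < δ → δ < 1 → FamilyBound A q δ C) ↔ Q1At d q) :=
  Pool.Agent.L0h24.Uni.main hd hε

end Pool.Agent.Results.MP_850839_an.UniversalFamily
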